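import Pool.Agent.H28.LF.F1

/-!
Row THC of the board LF (front end of Theorem U): the frequency and the flag are constant on a
component.
-/

set_option autoImplicit false

open MeasureTheory ProbabilityTheory Filter Topology Finset
open scoped Nat ENNReal

namespace Pool.Agent.H96.LF

open Pool.Agent.H28.LF

theorem meas_xiY (p : ℕ) : Measurable (xiY p) := by
  unfold xiY
  exact (measurable_pi_apply p).comp (measurable_snd.comp (measurable_snd.comp
    (measurable_pi_apply (0 : ℤ))))

theorem meas_thX (hT : Continuous thv) : Measurable thX := by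
  unfold thX
  exact hT.measurable.comp (measurable_snd.comp (measurable_pi_apply (0 : ℤ)))

theorem shX_zero (ξ : Xi) : (shX ξ) 0 = ξ 1 := rfl

theorem pf_THC (hT : T_THV) : T_THC := by
  intro ν F hC hF hinv p hp
  have := hC.prob
  have hlab := hC.lab p hp
  have hstp := hC.stp p hp
  refine ⟨?_, ?_⟩
  · have hm : Measurable (fun ω => thX (xiY p ω)) := (meas_thX hT.1).comp (meas_xiY p)
    have heq : (fun ω => thX (xiY p ω)) ∘ shY =ᵐ[ν] fun ω => thX (xiY p ω) := by
      filter_upwards [hlab, hstp] with ω h1 h2
      simp only [Function.comp_apply]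
      rcases h2 with h2 | h2
      · rw [h2]
      · rw [h2]
        unfold thX
        rw [shX_zero, h1]
    obtain ⟨t, ht⟩ := hC.erg.ae_eq_const_of_ae_eq_comp₀ hm.nullMeasurable heq
    exact ⟨t, ht⟩
  · have hms : MeasurableSet (xiY p ⁻¹' F) := meas_xiY p hF
    have heq : shY ⁻¹' (xiY p ⁻¹' F) =ᵐ[ν] xiY p ⁻¹' F := by
      refine Filter.Eventually.set_eq ?_
      filter_upwards [hstp] with ω h2
      simp only [Set.mem_preimage]
      rcases h2 with h2 | h2
      · rw [h2]
      · rw [h2]
        have : shX (xiY p ω) ∈ F ↔ xiY p ω ∈ shX ⁻¹' F := Iff.rfl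
        rw [this, hinv]
    rcases hC.erg.quasiErgodic.ae_empty_or_univ₀ hms.nullMeasurableSet heq with h | h
    · left
      rw [measureReal_congr h]
      simp
    · right
      rw [measureReal_congr h]
      simp

end Pool.Agent.H96.LF
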