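import Pool.Agent.H25.LF.Targets

/-!
# MP_04ff0f_nt, board lpf_modules, row TRZ: a trapezoid as a combination of hats
-/

set_option autoImplicit false

open Finset Real ArithmeticFunction

open Pool.Agent.H25.LF

namespace Pool.Agent.H96.LF

open Pool.Agent.H27.LS (hat)

/-- the combination of hats -/
noncomputable def SM (M : ℕ) (v : ℝ) : ℝ := ∑ m ∈ Icc 1 M, (m : ℝ) * hat (v + m)

theorem SM_succ (M : ℕ) (v : ℝ) : SM (M + 1) v = SM M v + ((M : ℝ) + 1) * hat (v + M + 1) := by
  unfold SM
  rw [Finset.sum_Icc_succ_top (by omega)]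
  push_cast
  rw [← add_assoc]

theorem hat_zero_right {u : ℝ} (h : 1 ≤ u) : hat u = 0 := by
  unfold hat
  rw [abs_of_nonneg (by linarith)]
  exact max_eq_left (by linarith)

theorem hat_zero_left {u : ℝ} (h : u ≤ -1) : hat u = 0 := by
  unfold hat
  rw [abs_of_nonpos (by linarith)]
  exact max_eq_left (by linarith)

theorem hat_pos_eq {u : ℝ} (h : 0 ≤ u) (h1 : u ≤ 1) : hat u = 1 - u := by
  unfold hat
  rw [abs_of_nonneg h]
  exact max_eq_right (by linarith)

theorem hat_neg_eq {u : ℝ} (h : u ≤ 0) (h1 : -1 ≤ u) : hat u = 1 + u := by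
  unfold hat
  rw [abs_of_nonpos h, sub_neg_eq_add]
  exact max_eq_right (by linarith)

theorem SM_cases (M : ℕ) : ∀ v : ℝ, (0 ≤ v → SM M v = 0) ∧
    (-(M : ℝ) ≤ v → v ≤ 0 → SM M v = -v) ∧
    (-(M : ℝ) - 1 ≤ v → v ≤ -(M : ℝ) → SM M v = M * (v + M + 1)) ∧
    (v ≤ -(M : ℝ) - 1 → SM M v = 0) := by
  induction M with
  | zero =>
    intro v
    have h0 : SM 0 v = 0 := by simp [SM]
    rw [h0]
    refine ⟨fun _ => rfl, fun h1 h2 => ?_, fun _ _ => ?_, fun _ => rfl⟩
    · have h3 : v = 0 := le_antisymm h2 (by simpa using h1)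
      rw [h3, neg_zero]
    · simp
  | succ M ih =>
    intro v
    obtain ⟨i1, i2, i3, i4⟩ := ih v
    have hM : (0 : ℝ) ≤ M := Nat.cast_nonneg M
    rw [SM_succ]
    push_cast
    refine ⟨fun h => ?_, fun h1 h2 => ?_, fun h1 h2 => ?_, fun h => ?_⟩
    · rw [i1 h, hat_zero_right (by linarith)]
      ring
    · rcases le_total (-(M : ℝ)) v with h3 | h3
      · rw [i2 h3 h2, hat_zero_right (by linarith)]
        ring
      · rw [i3 (by linarith) h3, hat_pos_eq (by linarith) (by linarith)]
        ring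
    · rw [i4 (by linarith), hat_neg_eq (by linarith) (by linarith)]
      ring
    · rw [i4 (by linarith), hat_zero_left (by linarith)]
      ring

theorem PH_eq (w : ℝ) (M : ℕ) (u : ℝ) : PH w M u = (SM M (u - w) - SM M u) / w := by
  unfold PH SM
  congr 1
  rw [← Finset.sum_sub_distrib]
  exact Finset.sum_congr rfl fun m _ => mul_sub _ _ _

/-- the differences of the trapezoid -/
theorem diff_bounds {w : ℝ} {M : ℕ} {u : ℝ} (hw : 0 < w) (hw1 : w < 1) (hM : 1 ≤ M) :
    (w < u → SM M (u - w) - SM M u = 0) ∧ SM M (u - w) - SM M u ≤ w ∧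
    -(M : ℝ) * w ≤ SM M (u - w) - SM M u ∧ (0 < u → 0 ≤ SM M (u - w) - SM M u) ∧
    (u ≤ 0 → 1 - (M : ℝ) < u → SM M (u - w) - SM M u = w) := by
  obtain ⟨i1, i2, i3, i4⟩ := SM_cases M (u - w)
  obtain ⟨j1, j2, j3, j4⟩ := SM_cases M u
  have hM1 : (1 : ℝ) ≤ M := by exact_mod_cast hM
  have hMw : 0 ≤ (M : ℝ) * w := by positivity
  refine ⟨fun h => ?_, ?_, ?_, fun h => ?_, fun h1 h2 => ?_⟩
  · rw [i1 (by linarith), j1 (by linarith), sub_zero]
  · rcases le_total 0 u with h0 | h0
    · rw [j1 h0]
      rcases le_total 0 (u - w) with h1 | h1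
      · rw [i1 h1]
        linarith
      · rw [i2 (by linarith) h1]
        linarith
    · rcases le_total (-(M : ℝ)) (u - w) with h1 | h1
      · rw [i2 h1 (by linarith), j2 (by linarith) h0]
        linarith
      · rcases le_total (-(M : ℝ) - 1) (u - w) with h2 | h2
        · rw [i3 h2 h1]
          rcases le_total (-(M : ℝ)) u with h3 | h3
          · rw [j2 h3 h0]
            nlinarith
          · rw [j3 (by linarith) h3]
            nlinarith
        · rw [i4 h2]
          rcases le_total (-(M : ℝ) - 1) u with h3 | h3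
          · rw [j3 h3 (by linarith)]
            nlinarith
          · rw [j4 h3]
            linarith
  · rcases le_total 0 u with h0 | h0
    · rw [j1 h0]
      rcases le_total 0 (u - w) with h1 | h1
      · rw [i1 h1]
        linarith
      · rw [i2 (by linarith) h1]
        linarith
    · rcases le_total (-(M : ℝ)) (u - w) with h1 | h1
      · rw [i2 h1 (by linarith), j2 (by linarith) h0]
        linarith
      · rcases le_total (-(M : ℝ) - 1) (u - w) with h2 | h2
        · rw [i3 h2 h1]
          rcases le_total (-(M : ℝ)) u with h3 | h3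
          · rw [j2 h3 h0]
            nlinarith
          · rw [j3 (by linarith) h3]
            nlinarith
        · rw [i4 h2]
          rcases le_total (-(M : ℝ) - 1) u with h3 | h3
          · rw [j3 h3 (by linarith)]
            nlinarith
          · rw [j4 h3]
            linarith
  · rw [j1 h.le]
    rcases le_total 0 (u - w) with h1 | h1
    · rw [i1 h1]
      linarith
    · rw [i2 (by linarith) h1]
      linarith
  · rw [i2 (by linarith) (by linarith), j2 (by linarith) h1]
    ring

theorem pf_TRZ : T_TRZ := by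
  intro w M u hw hw1 hM
  obtain ⟨d1, d2, d3, d4, d5⟩ := diff_bounds (u := u) hw hw1 hM
  have hM1 : (1 : ℝ) ≤ M := by exact_mod_cast hM
  rw [PH_eq]
  constructor
  · by_cases h0 : u ≤ 0
    · rw [if_pos h0]
      by_cases h1 : u ≤ 1 - (M : ℝ)
      · rw [if_pos h1, mul_one]
        have h2 : -(M : ℝ) ≤ (SM M (u - w) - SM M u) / w := by
          rw [le_div_iff₀ hw]
          exact d3
        linarith
      · rw [if_neg h1, mul_zero, add_zero, d5 h0 (not_le.1 h1), div_self hw.ne']
    · rw [if_neg h0]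
      have h1 := div_nonneg (d4 (not_le.1 h0)) hw.le
      have h2 : (0 : ℝ) ≤ (1 + M) * (if u ≤ 1 - (M : ℝ) then (1 : ℝ) else 0) := by
        apply mul_nonneg (by linarith)
        split_ifs <;> norm_num
      linarith
  · by_cases h0 : u ≤ w
    · rw [if_pos h0, div_le_one hw]
      exact d2
    · rw [if_neg h0, d1 (not_le.1 h0), zero_div]

end Pool.Agent.H96.LF
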